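import Pool.Agent.Helper17.IAN.StN

/-!
# Module EUS of project IA: estimate for one used triple
-/

set_option autoImplicit false

namespace Pool.Agent.Helper40.IAN

open Finset Pool.Agent.Helper93.IA Pool.Agent.Helper17.IAN

theorem hEUS : StEUS := by
  intro hPUS hCYL hPRD hEXB α β γ _ _ _ _ _ _ n Λ δ x hδ hθ0 hθ hD a b c
  rw [hPUS hCYL hPRD α β γ x a b c]
  obtain ⟨θ, hθd⟩ : ∃ θ : ℝ, θ = Λ / n := ⟨_, rfl⟩
  rw [← hθd] at hθ0 hθ ⊢
  have hx1 : ∀ a b c, x a b c ≤ θ := fun a b c => by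
    rw [hθd]
    exact hD.x1 a b c
  by_cases hx : x a b c = 0
  · rw [hx]
    simp
  · have hx0 := hD.x0 a b c
    -- the two sums
    have s1 : ∑ b' ∈ univ.erase b, x a b' c = ∑ b', x a b' c - x a b c := by
      rw [← Finset.add_sum_erase univ (fun b' => x a b' c) (mem_univ b)]
      ring
    have s2 : ∑ a' ∈ univ.erase a, x a' b c = ∑ a', x a' b c - x a b c := by
      rw [← Finset.add_sum_erase univ (fun a' => x a' b c) (mem_univ a)]
      ring
    have u1 := hD.uC c a
    have u2 := hD.uB b c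
    have l1 := hD.lC a b c hx
    have l2 := hD.lB a b c hx
    have hx2 := hx1 a b c
    have key := hEXB (β ⊕ α) ((univ.erase b).disjSum (univ.erase a))
      (Sum.elim (fun b' => x a b' c) (fun a' => x a' b c)) 2 (2 * δ + 2 * θ) θ hθ0 (by linarith)
      (by norm_num) (by linarith) ?_ ?_ ?_
    · rw [Finset.prod_disjSum] at key
      simp only [Sum.elim_inl, Sum.elim_inr] at key
      obtain ⟨Q, hQ⟩ : ∃ Q : ℝ, Q = (∏ b' ∈ univ.erase b, (1 - x a b' c)) *
        ∏ a' ∈ univ.erase a, (1 - x a' b c) := ⟨_, rfl⟩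
      rw [← hQ] at key ⊢
      have e : x a b c * Q - Real.exp (-2) * x a b c = x a b c * (Q - Real.exp (-2)) := by ring
      rw [e, abs_mul, abs_of_nonneg hx0]
      have h1 := mul_le_mul_of_nonneg_left key hx0
      calc x a b c * |Q - Real.exp (-2)| ≤ x a b c * (2 * δ + 2 * θ + θ * 2) := h1
        _ = (2 * δ + 4 * θ) * x a b c := by ring
    · intro j _
      rcases j with b' | a'
      · exact ⟨hD.x0 a b' c, hx1 a b' c⟩
      · exact ⟨hD.x0 a' b c, hx1 a' b c⟩
    · rw [Finset.sum_disjSum]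
      simp only [Sum.elim_inl, Sum.elim_inr]
      rw [s1, s2]
      linarith
    · rw [Finset.sum_disjSum]
      simp only [Sum.elim_inl, Sum.elim_inr]
      rw [s1, s2]
      linarith

end Pool.Agent.Helper40.IAN
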